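import Pool.Agent.Y863.CO.TR

/-!
# Job CO-LINK (helper863): orbits passing near a hyperbolic periodic orbit
-/

set_option autoImplicit false
set_option linter.unusedSectionVars false

open scoped Manifold ContDiff Topology
open Filter Set Metric

universe u

namespace Pool.Agent.Y863.CO.Link

open Pool.Agent.H718R2.G Pool.Agent.TH80.OMS Pool.Agent.Y504.CO Pool.Agent.Y863.CO

theorem emod1 (M : ℤ) (l : ℤ) (h0 : 0 ≤ l) (h1 : l < M) :
    (M + 1 + l) % (2 * M + 1) = M + 1 + l :=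
  Int.emod_eq_of_lt (by omega) (by omega)

theorem emod2 (M : ℤ) (l : ℤ) (h0 : M ≤ l) (h1 : l ≤ 2 * M) :
    (M + 1 + l) % (2 * M + 1) = l - M := by
  have e : M + 1 + l = (l - M) + (2 * M + 1) := by ring
  rw [e, Int.add_emod_right]
  exact Int.emod_eq_of_lt (by omega) (by omega)

theorem main (hHS : S_HS) (hLin : S_LIN) (hT : S_TRK.{u}) : S_LINK.{u} := by
  intro n N _ _ _ _ _ r hr g p hper hHyp s x hom hso hx hbot hx0 O hO hoO hsO hxO W hW W' hW'
  obtain ⟨m, hm, hp⟩ := hper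
  have hginj : Function.Injective g := g.injective
  have hgc : Continuous g := g.continuous
  -- the chart
  obtain ⟨ψ, hψ⟩ := Pool.Agent.W699.SC.gc n N p
  have hsrc : ψ.source ∈ 𝓝 p := ψ.open_source.mem_nhds hψ.src
  -- the phases
  obtain ⟨hT1, hT2⟩ := hT N g hgc hginj p m hm hp
  obtain ⟨a0, ha0, hta0⟩ := hT1 s hom 1
  obtain ⟨b0, hb0, htb0⟩ := hT2 x hx hbot 1
  obtain ⟨I, hI⟩ := eventually_atTop.1 (hta0.eventually hsrc)
  obtain ⟨J, hJ⟩ := eventually_atTop.1 (htb0.eventually hsrc)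
  obtain ⟨a, ha⟩ : ∃ a : ℕ, a = a0 + m * I := ⟨_, rfl⟩
  obtain ⟨b, hb⟩ : ∃ b : ℕ, b = b0 + m * J := ⟨_, rfl⟩
  have ha1 : 1 ≤ a := by rw [ha]; omega
  have hb1 : 1 ≤ b := by rw [hb]; omega
  obtain ⟨y, hy⟩ : ∃ y : ℤ → N, y = fun i => if 1 ≤ i then g^[a + m * (i - 1).toNat] s else
    x (-(b : ℤ) + m * i) := ⟨_, rfl⟩
  have y1 : ∀ i, 1 ≤ i → y i = g^[a + m * (i - 1).toNat] s := fun i hi => by
    rw [hy]; exact if_pos hi
  have y2 : ∀ i, i ≤ 0 → y i = x (-(b : ℤ) + m * i) := fun i hi => by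
    rw [hy]; exact if_neg (by omega)
  have yz : y 0 = x (-(b : ℤ)) := by rw [y2 0 le_rfl]; congr 1; ring
  have yone : y 1 = g^[a] s := by rw [y1 1 le_rfl]; simp
  have ystep : ∀ i, i ≠ 0 → g^[m] (y i) = y (i + 1) := by
    intro i hi
    by_cases h : 1 ≤ i
    · rw [y1 i h, y1 (i + 1) (by omega), ← Function.iterate_add_apply]
      have e : (i + 1 - 1).toNat = (i - 1).toNat + 1 := by omega
      rw [e]
      congr 1
      ring_nf
    · rw [y2 i (by omega), y2 (i + 1) (by omega), step_iter hx]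
      congr 1
      ring
  have hy1 : ∀ i : ℤ, 1 ≤ i → ∃ k : ℕ, i - 1 ≤ k ∧ I ≤ k ∧ y i = g^[a0 + m * k] s := by
    intro i hi
    refine ⟨I + (i - 1).toNat, by omega, by omega, ?_⟩
    rw [y1 i hi, ha]
    congr 1
    ring_nf
  have hy2 : ∀ i : ℤ, i ≤ 0 → ∃ k : ℕ, -i ≤ k ∧ J ≤ k ∧ y i = x (-(b0 : ℤ) - m * k) := by
    intro i hi
    refine ⟨J + (-i).toNat, by omega, by omega, ?_⟩
    rw [y2 i hi, hb]
    congr 1
    have e : ((-i).toNat : ℤ) = -i := by omega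
    push_cast
    rw [e]
    ring
  have hys : ∀ i, y i ∈ ψ.source := by
    intro i
    by_cases h : 1 ≤ i
    · obtain ⟨k, _, h2, h3⟩ := hy1 i h
      rw [h3]
      exact hI k h2
    · obtain ⟨k, _, h2, h3⟩ := hy2 i (by omega)
      rw [h3]
      exact hJ k h2
  have hyt : Tendsto y atTop (𝓝 p) := by
    intro S hS
    obtain ⟨K, hK⟩ := eventually_atTop.1 (hta0.eventually hS)
    refine eventually_atTop.2 ⟨K + 1, fun i hi => ?_⟩
    obtain ⟨k, h1, _, h3⟩ := hy1 i (by omega)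
    rw [h3]
    exact hK k (by omega)
  have hyb : Tendsto y atBot (𝓝 p) := by
    intro S hS
    obtain ⟨K, hK⟩ := eventually_atTop.1 (htb0.eventually hS)
    refine eventually_atBot.2 ⟨-K, fun i hi => ?_⟩
    obtain ⟨k, h1, _, h3⟩ := hy2 i (by omega)
    rw [h3]
    exact hK k (by omega)
  obtain ⟨ζ, hζ⟩ : ∃ ζ : ℤ → V n, ζ = fun i => ψ (y i) := ⟨_, rfl⟩
  have hζi : ∀ i, ζ i = ψ (y i) := fun i => by rw [hζ]
  have hζs : ∀ i, ψ.symm (ζ i) = y i := fun i => by rw [hζi, ψ.left_inv (hys i)]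
  have hψp : Tendsto ψ (𝓝 p) (𝓝 0) := by
    have := ψ.continuousAt hψ.src
    rwa [ContinuousAt, hψ.zero] at this
  have hζt : Tendsto ζ atTop (𝓝 0) := by rw [hζ]; exact hψp.comp hyt
  have hζb : Tendsto ζ atBot (𝓝 0) := by rw [hζ]; exact hψp.comp hyb
  have hs0 : ψ.symm 0 = p := by rw [← hψ.zero, ψ.left_inv hψ.src]
  have hdG : ∀ i, i ≠ 0 → ContDiffAt ℝ 1 (fun v => ψ (g^[m] (ψ.symm v))) (ζ i) := by
    intro i hi
    rw [hζi]
    exact cda hr g m hψ.mem (hys i) (by rw [ystep i hi]; exact hys _)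
  have hd0 : ContDiffAt ℝ 1 (fun v => ψ (g^[m] (ψ.symm v))) 0 := by
    have := cda hr g m hψ.mem hψ.src (by rw [hp]; exact hψ.src)
    rwa [hψ.zero] at this
  -- the artificial transition
  obtain ⟨B, hB⟩ : ∃ B : ℤ → V n →L[ℝ] V n, B = fun i => if i = 0 then
    ContinuousLinearMap.id ℝ (V n) else
      fderiv ℝ (fun v => ψ (g^[m] (ψ.symm v))) (ζ i) := ⟨_, rfl⟩
  have hB0 : B 0 = ContinuousLinearMap.id ℝ (V n) := by
    rw [hB]; exact if_pos rfl
  have hBi : ∀ i, i ≠ 0 → B i = fderiv ℝ (fun v => ψ (g^[m] (ψ.symm v))) (ζ i) := by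
    intro i hi
    rw [hB]; exact if_neg hi
  have hcont : Tendsto (fderiv ℝ (fun v => ψ (g^[m] (ψ.symm v)))) (𝓝 0)
      (𝓝 (fderiv ℝ (fun v => ψ (g^[m] (ψ.symm v))) 0)) :=
    (hd0.fderiv_right (m := 0) (by norm_num)).continuousAt
  have hBt : Tendsto B atTop (𝓝 (fderiv ℝ (fun v => ψ (g^[m] (ψ.symm v))) 0)) := by
    refine (hcont.comp hζt).congr' ?_
    filter_upwards [eventually_ge_atTop 1] with i hi
    rw [hBi i (by omega)]
    rfl
  have hBb : Tendsto B atBot (𝓝 (fderiv ℝ (fun v => ψ (g^[m] (ψ.symm v))) 0)) := by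
    refine (hcont.comp hζb).congr' ?_
    filter_upwards [eventually_le_atBot (-1)] with i hi
    rw [hBi i (by omega)]
    rfl
  have hBinj : ∀ i, Function.Injective (B i) := by
    intro i
    by_cases h : i = 0
    · subst h
      rw [hB0]
      exact fun _ _ h => h
    · rw [hBi i h, hζi]
      exact inj hr g m hψ.mem (hys i) (by rw [ystep i h]; exact hys _)
  have hAinj : Function.Injective (fderiv ℝ (fun v => ψ (g^[m] (ψ.symm v))) 0) := by
    have := inj hr g m hψ.mem hψ.src (by rw [hp]; exact hψ.src)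
    rwa [hψ.zero] at this
  have hAn : NoBdd (fun _ => fderiv ℝ (fun v => ψ (g^[m] (ψ.symm v))) 0) := by
    have := hHyp m hm hp ψ hψ.mem hψ.src
    rwa [hψ.zero] at this
  obtain ⟨T, hTκ, hNB⟩ := hLin n B _ hBt hBb hBinj hAinj hAn 1 one_pos
  obtain ⟨Ψ, hΨ⟩ : ∃ Ψ : V n → V n, Ψ = fun v => ζ 1 +
    (ContinuousLinearMap.id ℝ (V n) + T) (v - ζ 0) := ⟨_, rfl⟩
  have hΨd : HasFDerivAt Ψ (ContinuousLinearMap.id ℝ (V n) + T) (ζ 0) := by
    rw [hΨ]
    have h10 : HasFDerivAt (fun v : V n => v - ζ 0) (ContinuousLinearMap.id ℝ (V n)) (ζ 0) :=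
      (hasFDerivAt_id _).sub_const _
    have h11 := (ContinuousLinearMap.id ℝ (V n) + T).hasFDerivAt.comp (ζ 0) h10
    rw [ContinuousLinearMap.comp_id] at h11
    exact h11.const_add _
  have hΨc : ContDiffAt ℝ 1 Ψ (ζ 0) := by
    rw [hΨ]
    apply ContDiff.contDiffAt
    exact contDiff_const.add ((ContinuousLinearMap.id ℝ (V n) + T).contDiff.comp
      (contDiff_id.sub contDiff_const))
  have hdata : HomData (fun v => ψ (g^[m] (ψ.symm v))) Ψ ζ := by
    refine ⟨?_, hd0, hζt, hζb, ?_, hdG, ?_, hΨc, hAn, ?_⟩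
    · show ψ (g^[m] (ψ.symm 0)) = 0
      rw [hs0, hp, hψ.zero]
    · intro i hi
      show ψ (g^[m] (ψ.symm (ζ i))) = ζ (i + 1)
      rw [hζs, ystep i hi, hζi]
    · rw [hΨ]
      show ζ 1 + (ContinuousLinearMap.id ℝ (V n) + T) (ζ 0 - ζ 0) = ζ 1
      rw [sub_self, map_zero, add_zero]
    · have e : (fun i : ℤ => if i = 0 then fderiv ℝ Ψ (ζ 0) else
          fderiv ℝ (fun v => ψ (g^[m] (ψ.symm v))) (ζ i)) =
          fun i => if i = 0 then (B 0) ∘L (ContinuousLinearMap.id ℝ (V n) + T) else B i := by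
        funext i
        by_cases h : i = 0
        · rw [if_pos h, if_pos h, hB0, hΨd.fderiv]
          rfl
        · rw [if_neg h, if_neg h, hBi i h]
      rw [e]
      exact hNB
  -- uniform neighbourhoods
  obtain ⟨Gd, hGd⟩ : ∃ Gd : Set N, Gd = {q | g^[m] q ∈ ψ.source} ∩
    ⋂ t ∈ Finset.range m, {q | g^[t] q ∈ O} := ⟨_, rfl⟩
  have hGdo : IsOpen Gd := by
    rw [hGd]
    refine (ψ.open_source.preimage (hgc.iterate m)).inter ?_
    exact isOpen_biInter_finset fun t _ => hO.preimage (hgc.iterate t)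
  have hGdm : ∀ q, q ∈ Gd ↔ g^[m] q ∈ ψ.source ∧ ∀ t < m, g^[t] q ∈ O := by
    intro q
    rw [hGd]
    simp
  have hGp : p ∈ Gd := by
    rw [hGdm]
    exact ⟨by rw [hp]; exact hψ.src, fun t _ => hoO ⟨t, rfl⟩⟩
  have hGy : ∀ j, j ≠ 0 → y j ∈ Gd := by
    intro j hj
    rw [hGdm]
    refine ⟨by rw [ystep j hj]; exact hys _, fun t ht => ?_⟩
    by_cases h : 1 ≤ j
    · rw [y1 j h, ← Function.iterate_add_apply]
      exact hsO _ (by omega)
    · rw [y2 j (by omega), step_iter hx]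
      apply hxO
      have : (m : ℤ) * j ≤ (m : ℤ) * (-1) := by
        apply mul_le_mul_of_nonneg_left <;> omega
      omega
  have hopen : IsOpen (ψ.target ∩ ψ.symm ⁻¹' Gd) := ψ.isOpen_inter_preimage_symm hGdo
  obtain ⟨ζ', hζ'⟩ : ∃ ζ' : ℤ → V n, ζ' = fun i => if i = 0 then 0 else ζ i := ⟨_, rfl⟩
  have hζ'i : ∀ i, i ≠ 0 → ζ' i = ζ i := fun i hi => by rw [hζ']; exact if_neg hi
  have hζ'c : Tendsto ζ' cofinite (𝓝 0) := by
    rw [Int.cofinite_eq]
    apply Tendsto.sup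
    · refine hζb.congr' ?_
      filter_upwards [eventually_le_atBot (-1)] with i hi
      rw [hζ'i i (by omega)]
    · refine hζt.congr' ?_
      filter_upwards [eventually_ge_atTop 1] with i hi
      rw [hζ'i i (by omega)]
  have hcomp : IsCompact (insert (0 : V n) (range ζ')) :=
    hζ'c.isCompact_insert_range_of_cofinite
  have hsub : insert (0 : V n) (range ζ') ⊆ ψ.target ∩ ψ.symm ⁻¹' Gd := by
    have h0 : (0 : V n) ∈ ψ.target ∩ ψ.symm ⁻¹' Gd := by
      refine ⟨?_, ?_⟩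
      · rw [← hψ.zero]; exact ψ.map_source hψ.src
      · show ψ.symm 0 ∈ Gd
        rw [hs0]; exact hGp
    rintro w (rfl | ⟨i, rfl⟩)
    · exact h0
    · by_cases hi : i = 0
      · have e : ζ' i = 0 := by rw [hζ']; exact if_pos hi
        rw [e]
        exact h0
      · rw [hζ'i i hi]
        refine ⟨?_, ?_⟩
        · rw [hζi]; exact ψ.map_source (hys i)
        · show ψ.symm (ζ i) ∈ Gd
          rw [hζs]; exact hGy i hi
  obtain ⟨ε1, hε1, hε1'⟩ := hcomp.exists_cthickening_subset_open hopen hsub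
  -- near `ζ 1`
  have hinv : ∀ q : N, g.symm^[a] (g^[a] q) = q :=
    Function.LeftInverse.iterate (fun y => g.symm_apply_apply y) a
  have hinv' : ∀ q : N, g^[a] (g.symm^[a] q) = q :=
    Function.LeftInverse.iterate (fun y => g.apply_symm_apply y) a
  have hev1 : ∀ᶠ w in 𝓝 (ζ 1), g.symm^[a] (ψ.symm w) ∈ W ∧
      ∀ i ∈ Finset.Icc 1 a, g^[i] (g.symm^[a] (ψ.symm w)) ∈ O := by
    have h1 : ∀ᶠ q in 𝓝 s, q ∈ W ∧ ∀ i ∈ Finset.Icc 1 a, g^[i] q ∈ O := by
      refine (show ∀ᶠ q in 𝓝 s, q ∈ W from hW).and ?_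
      rw [Filter.eventually_all_finset]
      intro i hi
      rw [Finset.mem_Icc] at hi
      exact (hgc.iterate i).continuousAt.eventually (hO.mem_nhds (hsO i hi.1))
    have h2 : ContinuousAt (fun w => g.symm^[a] (ψ.symm w)) (ζ 1) := by
      apply ContinuousAt.comp (g := g.symm^[a]) (f := ψ.symm)
      · exact (g.symm.continuous.iterate a).continuousAt
      · rw [hζi]
        exact ψ.continuousAt_symm (ψ.map_source (hys 1))
    apply h2.eventually (p := fun q => q ∈ W ∧ ∀ i ∈ Finset.Icc 1 a, g^[i] q ∈ O)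
    show ∀ᶠ q in 𝓝 (g.symm^[a] (ψ.symm (ζ 1))), q ∈ W ∧ ∀ i ∈ Finset.Icc 1 a, g^[i] q ∈ O
    rw [hζs, yone, hinv]
    exact h1
  -- near `ζ 0`
  have hev0 : ∀ᶠ w in 𝓝 (ζ 0), g^[b] (ψ.symm w) ∈ W' ∧
      ∀ i ∈ Finset.range b, g^[i] (ψ.symm w) ∈ O := by
    have h2 : ContinuousAt ψ.symm (ζ 0) := by
      rw [hζi]
      exact ψ.continuousAt_symm (ψ.map_source (hys 0))
    apply h2.eventually (p := fun q => g^[b] q ∈ W' ∧ ∀ i ∈ Finset.range b, g^[i] q ∈ O)
    rw [hζs, yz]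
    have h3 : ∀ᶠ q in 𝓝 (x (-(b : ℤ))), g^[b] q ∈ W' := by
      apply (hgc.iterate b).continuousAt.eventually
      rw [step_iter hx, neg_add_cancel]
      exact hW'
    refine h3.and ?_
    rw [Filter.eventually_all_finset]
    intro i hi
    rw [Finset.mem_range] at hi
    apply (hgc.iterate i).continuousAt.eventually
    apply hO.mem_nhds
    rw [step_iter hx]
    exact hxO _ (by omega)
  obtain ⟨ε2, hε2, hε2'⟩ := Metric.eventually_nhds_iff.1 hev1
  obtain ⟨ε3, hε3, hε3'⟩ := Metric.eventually_nhds_iff.1 hev0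
  obtain ⟨ε, hε, hεe1, hεe2, hεe3⟩ : ∃ ε : ℝ, 0 < ε ∧ ε ≤ ε1 ∧ ε < ε2 ∧ ε < ε3 := by
    refine ⟨min ε1 (min ε2 ε3) / 2, by positivity, ?_, ?_, ?_⟩
    · have h1 : min ε1 (min ε2 ε3) ≤ ε1 := min_le_left _ _
      linarith
    · have h1 : min ε1 (min ε2 ε3) ≤ ε2 := (min_le_right _ _).trans (min_le_left _ _)
      have h2 : 0 < min ε1 (min ε2 ε3) := by positivity
      linarith
    · have h1 : min ε1 (min ε2 ε3) ≤ ε3 := (min_le_right _ _).trans (min_le_right _ _)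
      have h2 : 0 < min ε1 (min ε2 ε3) := by positivity
      linarith
  obtain ⟨M, hM, hHS'⟩ := hHS (V n) _ Ψ ζ hdata ε hε
  obtain ⟨X, hXp, hXs, hXn⟩ := hHS' 1 (fun _ => true) le_rfl (fun _ => rfl)
  -- the orbit in the chart
  obtain ⟨Y, hY⟩ : ∃ Y : ℕ → V n, Y = fun l : ℕ => X ((M : ℤ) + 1 + (l : ℤ)) := ⟨_, rfl⟩
  have hYn1 : ∀ l : ℕ, l < 2 * M → Y l ∈ ψ.target ∩ ψ.symm ⁻¹' Gd := by
    intro l hl
    apply hε1'
    have h1 := hXn ((M : ℤ) + 1 + l)
    rw [if_pos rfl] at h1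
    obtain ⟨j, hj, hj'⟩ : ∃ j : ℤ, j ≠ 0 ∧ ((M : ℤ) + 1 + l) % (2 * (M : ℤ) + 1) - M = j := by
      refine ⟨_, ?_, rfl⟩
      by_cases h : l < M
      · rw [emod1 M l (by omega) (by omega)]
        omega
      · rw [emod2 M l (by omega) (by omega)]
        omega
    rw [hj', ← hζ'i j hj, ← dist_eq_norm] at h1
    apply mem_cthickening_of_dist_le (Y l) (ζ' j) ε1 _ (Or.inr ⟨j, rfl⟩)
    rw [hY]
    exact h1.trans hεe1
  have hYs : ∀ l : ℕ, l < 2 * M → Y (l + 1) = ψ (g^[m] (ψ.symm (Y l))) := by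
    intro l hl
    have h1 := hXs ((M : ℤ) + 1 + l)
    rw [if_neg ?_] at h1
    · rw [hY]
      show X ((M : ℤ) + 1 + ((l + 1 : ℕ) : ℤ)) = _
      have e : (M : ℤ) + 1 + ((l + 1 : ℕ) : ℤ) = (M : ℤ) + 1 + l + 1 := by push_cast; ring
      rw [e]
      exact h1
    · rintro ⟨_, h⟩
      by_cases h' : l < M
      · rw [emod1 M l (by omega) (by omega)] at h
        omega
      · rw [emod2 M l (by omega) (by omega)] at h
        omega
  have hY1 : dist (Y 0) (ζ 1) ≤ ε := by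
    have h1 := hXn ((M : ℤ) + 1 + (0 : ℕ))
    rw [if_pos rfl, emod1 M _ (by omega) (by omega)] at h1
    have e : (M : ℤ) + 1 + ((0 : ℕ) : ℤ) - M = 1 := by push_cast; ring
    rw [e, ← dist_eq_norm] at h1
    rw [hY]
    exact h1
  have hY0 : dist (Y (2 * M)) (ζ 0) ≤ ε := by
    have h1 := hXn ((M : ℤ) + 1 + ((2 * M : ℕ) : ℤ))
    rw [if_pos rfl, emod2 M _ (by omega) (by omega)] at h1
    have e : ((2 * M : ℕ) : ℤ) - M - M = 0 := by push_cast; ring
    rw [e, ← dist_eq_norm] at h1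
    rw [hY]
    exact h1
  have hiter : ∀ l : ℕ, l ≤ 2 * M → g^[m * l] (ψ.symm (Y 0)) = ψ.symm (Y l) := by
    intro l
    induction l with
    | zero => intro _; rfl
    | succ l ih =>
      intro hl
      have h1 := ih (by omega)
      have h2 := hYn1 l (by omega)
      have e : m * (l + 1) = m + m * l := by ring
      rw [e, Function.iterate_add_apply, h1, hYs l (by omega)]
      rw [ψ.left_inv]
      exact ((hGdm _).1 h2.2).1
  have hE1 := hε2' (lt_of_le_of_lt hY1 hεe2)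
  have hE0 := hε3' (lt_of_le_of_lt hY0 hεe3)
  refine ⟨g.symm^[a] (ψ.symm (Y 0)), hE1.1, b + (m * (2 * M) + a), by omega, ?_, ?_⟩
  · rw [Function.iterate_add_apply, Function.iterate_add_apply, hinv', hiter _ le_rfl]
    exact hE0.1
  · intro i hi0 hik
    by_cases h1 : i ≤ a
    · exact hE1.2 i (Finset.mem_Icc.2 ⟨hi0, h1⟩)
    by_cases h2 : i < m * (2 * M) + a
    · have h3 : (i - a) / m < 2 * M := by
        apply Nat.div_lt_of_lt_mul
        omega
      have h4 : (i - a) % m < m := Nat.mod_lt _ (by omega)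
      have h5 : i = (i - a) % m + (m * ((i - a) / m) + a) := by
        have := Nat.mod_add_div (i - a) m
        omega
      rw [h5, Function.iterate_add_apply, Function.iterate_add_apply, hinv', hiter _ h3.le]
      exact ((hGdm _).1 (hYn1 _ h3).2).2 _ h4
    · have h5 : i = (i - (m * (2 * M) + a)) + (m * (2 * M) + a) := by omega
      rw [h5, Function.iterate_add_apply, Function.iterate_add_apply, hinv', hiter _ le_rfl]
      exact hE0.2 _ (Finset.mem_range.2 (by omega))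

end Pool.Agent.Y863.CO.Link
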